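import Pool.Agent.MuSS.Poly

/-!
The values `G x = Φ(∞, x)` of a modular symbol which is killed by `T_p`, in characteristic `p`:
levels, sheets, and the reduction of the vanishing theorem to a statement on the points of
valuation `-2`.
-/

open Finset

namespace Pool.Agent.MuSS

variable {F : Type} [Field F]

/-- The properties of the function `G x = Φ(∞, x)` used in the proof. -/
structure Core (p N g : ℕ) (e : F) (G : ℚ → F → F → F) : Prop where
  he : e ≠ 0
  poly : ∀ x, IsPoly g (G x)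
  tr : ∀ (x : ℚ) (u v : F), G (x + 1) u v = G x u (u + v)
  sh : ∀ a b c d : ℤ, a * d - b * c = 1 → (N : ℤ) ∣ c → c ≠ 0 → ∀ x : ℚ, (c : ℚ) * x + d ≠ 0 →
    (∀ u v, G x u v = 0) → ∀ u v, G ((a * x + b) / (c * x + d)) u v = G (a / c) u v
  low : ∀ x : ℚ, (N : ℚ) * x + 1 ≠ 0 → (∀ u v, G (x / (N * x + 1)) u v = G 0 u v) →
    ∀ u v, G x u v = G 0 u v
  hecke : ∀ x : ℚ, ∑ j ∈ range p, (-(j : F)) ^ g * G ((x + j) / p) 0 1 + e * G (p * x) 1 0 = 0

variable {p N g : ℕ} {e : F} {G : ℚ → F → F → F}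

/-- All values at the points of level `i` vanish. -/
def Lev (p : ℕ) (G : ℚ → F → F → F) (i : ℕ) : Prop :=
  ∀ s : ℤ, (i = 0 ∨ ¬ (p : ℤ) ∣ s) → ∀ u v, G ((s : ℚ) / (p : ℚ) ^ i) u v = 0

lemma Core.tr_nat (H : Core p N g e G) (x : ℚ) (n : ℕ) (u v : F) :
    G (x + n) u v = G x u (n * u + v) := by
  induction n generalizing v with
  | zero => simp
  | succ n ih =>
    rw [show x + ((n + 1 : ℕ) : ℚ) = x + n + 1 by push_cast; ring, H.tr, ih]
    congr 1
    push_cast
    ring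

lemma Core.tr_int (H : Core p N g e G) (x : ℚ) (n : ℤ) (u v : F) :
    G (x + n) u v = G x u (n * u + v) := by
  obtain ⟨m, rfl | rfl⟩ := Int.eq_nat_or_neg n
  · have := H.tr_nat x m u v
    push_cast
    exact this
  · have h1 := H.tr_nat (x + ((-(m : ℤ) : ℤ) : ℚ)) m u (((-(m : ℤ) : ℤ) : F) * u + v)
    rw [show x + ((-(m : ℤ) : ℤ) : ℚ) + m = x by push_cast; ring] at h1
    rw [h1]
    congr 1
    push_cast
    ring

/-- The sheet lemma. -/
lemma Core.sheet (H : Core p N g e G) (hp : p.Prime) {a c b d : ℤ} {i : ℕ} (hL : Lev p G i)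
    (hac : IsCoprime a c) (hN : (N : ℤ) ∣ c) (hc : c ≠ 0) (hd : d ≠ 0)
    (hi : a * d - c * b = (p : ℤ) ^ i) (hb : ¬ (p : ℤ) ∣ b) (u v : F) :
    G ((b : ℚ) / d) u v = G ((a : ℚ) / c) u v := by
  have hpp : Prime (p : ℤ) := Nat.prime_iff_prime_int.mp hp
  obtain ⟨d2, b2', hbez⟩ := hac
  obtain ⟨b2, rfl⟩ : ∃ b2, b2' = -b2 := ⟨-b2', by ring⟩
  have hdet : a * d2 - b2 * c = 1 := by linarith
  have hpQ : (p : ℚ) ≠ 0 := by exact_mod_cast hp.ne_zero
  have hP : (p : ℚ) ^ i ≠ 0 := pow_ne_zero _ hpQ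
  have hdQ : (d : ℚ) ≠ 0 := by exact_mod_cast hd
  have hdetQ : (a : ℚ) * d2 - b2 * c = 1 := by exact_mod_cast hdet
  have hiQ : (a : ℚ) * d - c * b = (p : ℚ) ^ i := by exact_mod_cast hi
  have e1 : (c : ℚ) * (((d2 * b - b2 * d : ℤ) : ℚ) / (p : ℚ) ^ i) + d2 = d / (p : ℚ) ^ i := by
    rw [eq_div_iff hP, add_mul, mul_assoc, div_mul_cancel₀ _ hP, ← hiQ]
    push_cast
    linear_combination (d : ℚ) * hdetQ
  have e2 : (a : ℚ) * (((d2 * b - b2 * d : ℤ) : ℚ) / (p : ℚ) ^ i) + b2 = b / (p : ℚ) ^ i := by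
    rw [eq_div_iff hP, add_mul, mul_assoc, div_mul_cancel₀ _ hP, ← hiQ]
    push_cast
    linear_combination (b : ℚ) * hdetQ
  have h0 : ∀ u v, G (((d2 * b - b2 * d : ℤ) : ℚ) / (p : ℚ) ^ i) u v = 0 := by
    apply hL
    rcases Nat.eq_zero_or_pos i with h | h
    · exact Or.inl h
    · right
      intro hcon
      apply hb
      have h1 : (p : ℤ) ∣ a * d - c * b := by
        rw [hi]
        exact dvd_pow_self _ (by omega)
      have h2 : b = a * (d2 * b - b2 * d) + b2 * (a * d - c * b) := by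
        linear_combination (-b) * hdet
      rw [h2]
      exact dvd_add (hcon.mul_left _) (h1.mul_left _)
  have key := H.sh a b2 c d2 hdet hN hc _ (by rw [e1]; exact div_ne_zero hdQ hP) h0 u v
  rw [e1, e2, div_div_div_cancel_right₀ hP] at key
  exact key

/-- The first step of the descent of the levels. -/
lemma Core.descent_one (H : Core p N g e G) (hp : p.Prime) {n : ℕ}
    (h : ∀ s : ℤ, ¬ (p : ℤ) ∣ s → G ((s : ℚ) / (p : ℚ) ^ (n + 2)) 0 1 = 0) (s : ℤ)
    (hs : ¬ (p : ℤ) ∣ s) : G ((s : ℚ) / (p : ℚ) ^ n) 1 0 = 0 := by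
  have hpQ : (p : ℚ) ≠ 0 := by exact_mod_cast hp.ne_zero
  have h1 := H.hecke ((s : ℚ) / (p : ℚ) ^ (n + 1))
  have h2 : ∀ j ∈ range p, (-(j : F)) ^ g * G (((s : ℚ) / (p : ℚ) ^ (n + 1) + j) / p) 0 1 = 0 := by
    intro j _
    have h3 := h (s + j * (p : ℤ) ^ (n + 1)) (by
      intro hcon
      apply hs
      have h4 : (p : ℤ) ∣ j * (p : ℤ) ^ (n + 1) := (dvd_pow_self _ (by omega)).mul_left _
      exact (dvd_add_left h4).mp hcon)
    have h5 : ((s : ℚ) / (p : ℚ) ^ (n + 1) + j) / p =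
        ((s + j * (p : ℤ) ^ (n + 1) : ℤ) : ℚ) / (p : ℚ) ^ (n + 2) := by
      push_cast
      field_simp
      ring
    rw [h5, h3, mul_zero]
  rw [sum_eq_zero h2, zero_add] at h1
  have h6 : (p : ℚ) * ((s : ℚ) / (p : ℚ) ^ (n + 1)) = (s : ℚ) / (p : ℚ) ^ n := by
    field_simp
    ring
  rw [h6] at h1
  exact (mul_eq_zero.mp h1).resolve_left H.he

section CharP

variable [CharP F p]

/-- For every `t` there is `k` with `p ∣ s + (k + 1 + i) * t` only for `i = p - 1`. -/
lemma exists_avoid (hp : p.Prime) (s t : ℤ) (ht : ¬ (p : ℤ) ∣ t) :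
    ∃ k : ℤ, ∀ i : ℕ, i < p - 1 → ¬ (p : ℤ) ∣ s + (k + i) * t := by
  have hpp : Prime (p : ℤ) := Nat.prime_iff_prime_int.mp hp
  obtain ⟨r, r', hr⟩ := ((Prime.coprime_iff_not_dvd hpp).mpr ht)
  refine ⟨1 - s * r', ?_⟩
  intro i hi hcon
  have h1 : s + (1 - s * r' + i) * t = (i + 1) * t + p * (s * r) := by
    linear_combination (-s) * hr
  rw [h1] at hcon
  have h2 : (p : ℤ) ∣ (i + 1) * t := (dvd_add_left (dvd_mul_right _ _)).mp hcon
  have h3 : (p : ℤ) ∣ ((i + 1 : ℕ) : ℤ) := by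
    push_cast
    exact (hpp.dvd_or_dvd h2).resolve_right ht
  have h4 : p ∣ i + 1 := by exact_mod_cast h3
  have := Nat.le_of_dvd (by omega) h4
  omega

/-- If `G (s / t + k) 1 0` vanishes whenever `p` does not divide `s + k t`, then `G (s / t)`
vanishes. -/
lemma Core.zero_of (H : Core p N g e G) (hp : p.Prime) (hg : g + 2 ≤ p) {s t : ℤ}
    (ht : ¬ (p : ℤ) ∣ t)
    (h : ∀ k : ℤ, ¬ (p : ℤ) ∣ s + k * t → G ((s : ℚ) / t + k) 1 0 = 0) (u v : F) :
    G ((s : ℚ) / t) u v = 0 := by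
  obtain ⟨k, hk⟩ := exists_avoid hp s t ht
  apply (H.poly _).zero_shift (p := p) (k : F) (m := p - 1) (by omega) (by omega)
  intro i hi
  have h1 := h (k + i) (hk i hi)
  rw [H.tr_int] at h1
  rw [← h1]
  congr 1
  push_cast
  ring

/-- The descent of the levels. -/
lemma Core.descent (H : Core p N g e G) (hp : p.Prime) (hg : g + 2 ≤ p) {n : ℕ}
    (h : ∀ s : ℤ, ¬ (p : ℤ) ∣ s → G ((s : ℚ) / (p : ℚ) ^ (n + 2)) 0 1 = 0) : Lev p G n := by
  have hpQ : (p : ℚ) ≠ 0 := by exact_mod_cast hp.ne_zero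
  have hpp : Prime (p : ℤ) := Nat.prime_iff_prime_int.mp hp
  intro s hs u v
  rcases Nat.eq_zero_or_pos n with h0 | h0
  · subst h0
    have h1 := H.zero_of hp hg (s := s) (t := 1) (by
      intro hcon
      exact hpp.not_isUnit (isUnit_of_dvd_one hcon)) (by
      intro k hk
      have h2 := H.descent_one hp h (s + k * 1) hk
      rw [← h2]
      congr 1
      push_cast
      ring) u v
    simpa using h1
  · have hs' := hs.resolve_left (by omega)
    apply (H.poly _).zero_shift (p := p) (0 : F) (m := p) le_rfl (by omega)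
    intro i _
    have h2 := H.descent_one hp h (s + i * (p : ℤ) ^ n) (by
      intro hcon
      apply hs'
      have h4 : (p : ℤ) ∣ i * (p : ℤ) ^ n := (dvd_pow_self _ (by omega)).mul_left _
      exact (dvd_add_left h4).mp hcon)
    have h3 : ((s + i * (p : ℤ) ^ n : ℤ) : ℚ) / (p : ℚ) ^ n = (s : ℚ) / (p : ℚ) ^ n + (i : ℕ) := by
      push_cast
      field_simp
    rw [h3, H.tr_nat, mul_one, add_zero] at h2
    rw [zero_add]
    exact h2

/-- The descent from a level to a smaller level of the same parity. -/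
lemma Core.descent_many (H : Core p N g e G) (hp : p.Prime) (hg : g + 2 ≤ p) (k : ℕ) :
    ∀ {n : ℕ}, (∀ s : ℤ, ¬ (p : ℤ) ∣ s → G ((s : ℚ) / (p : ℚ) ^ (n + 2 * (k + 1))) 0 1 = 0) →
      Lev p G n := by
  induction k with
  | zero =>
    intro n h
    exact H.descent hp hg h
  | succ k ih =>
    intro n h
    have h1 : Lev p G (n + 2) := by
      apply ih
      intro s hs
      have := h s hs
      rw [show n + 2 * (k + 1 + 1) = n + 2 + 2 * (k + 1) by ring] at this
      exact this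
    apply H.descent hp hg
    intro s hs
    exact h1 s (Or.inr hs) 0 1

/-- The points of valuation `-2` on which the translations by `n / p` act trivially. -/
def Step (p N : ℕ) (G : ℚ → F → F → F) : Prop :=
  ∀ b d : ℤ, ¬ (p : ℤ) ∣ b → ¬ (p : ℤ) ∣ d → IsCoprime b d → IsCoprime d N →
    ∃ n : ℤ, ¬ (p : ℤ) ∣ n ∧ ∀ k : ℤ,
      G ((b : ℚ) / (p ^ 2 * d) + k * n / p) 0 1 = G ((b : ℚ) / (p ^ 2 * d)) 0 1

/-- The reduction of the vanishing to the points of valuation `-2`: units. -/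
lemma Core.unit (H : Core p N g e G) (hp : p.Prime) (hg : g + 2 ≤ p) (hS : Step p N G) {b d : ℤ}
    (hb : ¬ (p : ℤ) ∣ b) (hd : ¬ (p : ℤ) ∣ d) (hbd : IsCoprime b d) (hdN : IsCoprime d N) :
    G ((b : ℚ) / d) 1 0 = 0 := by
  have hpQ : (p : ℚ) ≠ 0 := by exact_mod_cast hp.ne_zero
  have hpp : Prime (p : ℤ) := Nat.prime_iff_prime_int.mp hp
  have hd0 : (d : ℚ) ≠ 0 := by
    have : d ≠ 0 := by
      rintro rfl
      exact hd (dvd_zero _)
    exact_mod_cast this
  obtain ⟨n, hn, hk⟩ := hS b d hb hd hbd hdN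
  have h1 := H.hecke ((b : ℚ) / (p * d))
  have h2 : ∀ j ∈ range p, (-(j : F)) ^ g * G (((b : ℚ) / (p * d) + j) / p) 0 1 =
      (-(j : F)) ^ g * G ((b : ℚ) / (p ^ 2 * d)) 0 1 := by
    intro j _
    congr 1
    obtain ⟨r, r', hr⟩ := ((Prime.coprime_iff_not_dvd hpp).mpr hn)
    -- `j = j r p + j r' n`
    have h3 : ((b : ℚ) / (p * d) + j) / p =
        (b : ℚ) / (p ^ 2 * d) + ((j * r' : ℤ) : ℚ) * n / p + ((j * r : ℤ) : ℚ) := by
      have hrQ : (r : ℚ) * p + r' * n = 1 := by exact_mod_cast hr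
      push_cast
      field_simp
      linear_combination (-(p * d * j : ℚ)) * hrQ
    rw [h3, H.tr_int, mul_zero, zero_add, hk]
  rw [sum_congr rfl h2, ← sum_mul, sum_neg_pow hp hg, zero_mul, zero_add] at h1
  have h4 : (p : ℚ) * ((b : ℚ) / (p * d)) = (b : ℚ) / d := by
    field_simp
  rw [h4] at h1
  exact (mul_eq_zero.mp h1).resolve_left H.he

/-- The reduction of the vanishing to the points of valuation `-2`. -/
theorem Core.vanish (H : Core p N g e G) (hp : p.Prime) (hg : g + 2 ≤ p) (hpN : p.Coprime N)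
    (hS : Step p N G) {b d : ℤ} (hd : d ≠ 0) (hbd : IsCoprime b d) (hdN : IsCoprime d N)
    (u v : F) : G ((b : ℚ) / d) u v = 0 := by
  have hpp : Prime (p : ℤ) := Nat.prime_iff_prime_int.mp hp
  have hA : ∀ {b d : ℤ}, ¬ (p : ℤ) ∣ d → IsCoprime b d → IsCoprime d N → ∀ u v : F,
      G ((b : ℚ) / d) u v = 0 := by
    intro b d hpd hbd hdN u v
    have hd0 : (d : ℚ) ≠ 0 := by
      have : d ≠ 0 := by
        rintro rfl
        exact hpd (dvd_zero _)
      exact_mod_cast this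
    apply H.zero_of hp hg hpd
    intro k hk
    have h1 := H.unit hp hg hS hk hpd (hbd.add_mul_right_left k) hdN
    rw [← h1]
    congr 1
    push_cast
    field_simp
  by_cases hpd : (p : ℤ) ∣ d
  · have hpb : ¬ (p : ℤ) ∣ b := fun h => hpp.not_isUnit (hbd.isUnit_of_dvd' h hpd)
    have hNp : ¬ (p : ℤ) ∣ N := by
      intro h
      have h1 : p ∣ N := by exact_mod_cast h
      exact (hp.coprime_iff_not_dvd.mp hpN) h1
    have hne : ¬ (p : ℤ) ∣ N * b + d := by
      intro hcon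
      have h1 : (p : ℤ) ∣ N * b := (dvd_add_left hpd).mp hcon
      rcases hpp.dvd_or_dvd h1 with h2 | h2
      · exact hNp h2
      · exact hpb h2
    have hd0 : (d : ℚ) ≠ 0 := by exact_mod_cast hd
    have hne0 : ((N : ℚ) * b + d) ≠ 0 := by
      have : (N * b + d : ℤ) ≠ 0 := by
        intro h
        rw [h] at hne
        exact hne (dvd_zero _)
      exact_mod_cast this
    have h0 : ∀ u v, G 0 u v = 0 := by
      intro u v
      have := hA (b := 0) (d := 1) (by
        intro hcon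
        exact hpp.not_isUnit (isUnit_of_dvd_one hcon)) isCoprime_one_right isCoprime_one_left u v
      rw [← this]
      congr 1
      simp
    rw [H.low ((b : ℚ) / d) ?_ ?_ u v, h0]
    · have : (N : ℚ) * (b / d) + 1 = (N * b + d) / d := by
        field_simp
      rw [this]
      exact div_ne_zero hne0 hd0
    · intro u v
      have h3 := hA (b := b) (d := N * b + d) hne (by
        have := hbd.add_mul_left_right (N : ℤ)
        rw [show d + b * (N : ℤ) = N * b + d by ring] at this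
        exact this) (by
        have := hdN.add_mul_left_left b
        rw [show d + (N : ℤ) * b = N * b + d by ring] at this
        exact this) u v
      rw [h0, ← h3]
      congr 1
      push_cast
      have : (N : ℚ) * (b / d) + 1 = (N * b + d) / d := by
        field_simp
      rw [this]
      field_simp
  · exact hA hpd hbd hdN u v

end CharP

end Pool.Agent.MuSS
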