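import Pool.Agent.MuSS.Core

/-!
A boundary symbol in characteristic `p` which is killed by `T_p` vanishes.
-/

open Finset

namespace Pool.Agent.MuSS

variable {F : Type} [Field F]

/-- The properties of the function `G x = Φ(∞, x)` when `Φ` vanishes on the orbit of `0`. -/
structure Bd (p N g : ℕ) (ε : DirichletCharacter F N) (G : ℚ → F → F → F) : Prop where
  poly : ∀ x, IsPoly g (G x)
  eqv : ∀ a b c d : ℤ, a * d - b * c = 1 → (N : ℤ) ∣ c → ∀ x : ℚ, (c : ℚ) * x + d ≠ 0 →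
    ∀ u v, G ((a * x + b) / (c * x + d)) u v = ε d * G x (a * u + c * v) (b * u + d * v)
  hecke : ∀ x : ℚ, ∑ j ∈ range p, (-(j : F)) ^ g * G ((x + j) / p) 0 1 + ε p * G (p * x) 1 0 = 0
  hecke0 : 1 ≤ g → ∀ x : ℚ, ∑ j ∈ range p, G ((x + j) / p) 0 1 = 0

variable {p N g : ℕ} {ε : DirichletCharacter F N} {G : ℚ → F → F → F}

lemma IsPoly.const_per [CharP F p] {P : F → F → F} (h : IsPoly g P) (hg : g < p) (w : F)
    (hw : w ≠ 0) (hper : ∀ v, P 1 (v + w) = P 1 v) (u v : F) : P u v = P 1 0 * u ^ g := by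
  have hQ : IsPoly g (fun u v => P u (w * v)) := by
    obtain ⟨c, hc⟩ := h
    refine ⟨fun i => c i * w ^ i, fun u v => ?_⟩
    change P u (w * v) = _
    rw [hc]
    apply sum_congr rfl
    intro i _
    rw [mul_pow]
    ring
  have h1 : ∀ i : ℕ, P 1 (w * (i : F)) = P 1 0 := by
    intro i
    induction i with
    | zero => simp
    | succ i ih =>
      rw [← ih, ← hper (w * (i : F))]
      congr 1
      push_cast
      ring
  have h2 := hQ.const_shift (p := p) (P 1 0) hg (fun i _ => h1 i) u (v / w)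
  rw [← h2]
  change P u v = P u (w * (v / w))
  rw [mul_div_cancel₀ _ hw]

/-- The stabilizer of the cusp `a / c`. -/
lemma Bd.stab (H : Bd p N g ε G) {a c : ℤ} (hc : c ≠ 0) (u v : F) :
    G ((a : ℚ) / c) u v =
      G ((a : ℚ) / c) (u - N * c * (a * u + c * v)) (v + N * a * (a * u + c * v)) := by
  have hcQ : (c : ℚ) ≠ 0 := by exact_mod_cast hc
  have h1 : ((-(N * c ^ 2) : ℤ) : ℚ) * (a / c) + ((1 + N * a * c : ℤ) : ℚ) = 1 := by
    push_cast
    field_simp
    ring
  have h2 : ((1 - N * a * c : ℤ) : ℚ) * (a / c) + ((N * a ^ 2 : ℤ) : ℚ) = a / c := by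
    push_cast
    field_simp
    ring
  have h3 := H.eqv (1 - N * a * c) (N * a ^ 2) (-(N * c ^ 2)) (1 + N * a * c) (by ring)
    (by rw [dvd_neg]; exact dvd_mul_right _ _) ((a : ℚ) / c) (by rw [h1]; exact one_ne_zero) u v
  rw [h1, h2, div_one] at h3
  have h4 : (((1 + N * a * c : ℤ) : ℤ) : ZMod N) = 1 := by
    push_cast
    rw [ZMod.natCast_self]
    ring
  rw [h4, map_one, one_mul] at h3
  rw [h3]
  congr 1
  · push_cast
    ring
  · push_cast
    ring

section CharP

variable [CharP F p]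

lemma intCast_ne_zero {a : ℤ} (h : ¬ (p : ℤ) ∣ a) : (a : F) ≠ 0 := by
  intro hcon
  exact h ((CharP.intCast_eq_zero_iff F p a).mp hcon)

lemma not_dvd_level (hp : p.Prime) (hpN : p.Coprime N) : ¬ (p : ℤ) ∣ N := by
  intro h
  have h1 : p ∣ N := by exact_mod_cast h
  exact (hp.coprime_iff_not_dvd.mp hpN) h1

/-- The cusps whose denominator is divisible by `p`. -/
lemma Bd.low_den (H : Bd p N g ε G) (hp : p.Prime) (hg0 : 1 ≤ g) (hg : g + 2 ≤ p)
    (hpN : p.Coprime N) {a c : ℤ} (hc : c ≠ 0) (ha : ¬ (p : ℤ) ∣ a) (hpc : (p : ℤ) ∣ c) :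
    G ((a : ℚ) / c) 0 1 = 0 := by
  have hc0 : (c : F) = 0 := (CharP.intCast_eq_zero_iff F p c).mpr hpc
  have hN0 : (N : F) ≠ 0 := by
    have := intCast_ne_zero (F := F) (not_dvd_level hp hpN)
    exact_mod_cast this
  have ha0 : (a : F) ≠ 0 := intCast_ne_zero ha
  have h1 := (H.poly ((a : ℚ) / c)).const_per (p := p) (by omega) (N * a * a)
    (mul_ne_zero (mul_ne_zero hN0 ha0) ha0) (by
      intro v
      rw [H.stab hc 1 v, hc0]
      congr 1
      · ring
      · ring) 0 1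
  rw [h1, zero_pow (by omega), mul_zero]

/-- The cusps whose denominator is prime to `p`, and weight at least three: lowest coordinate. -/
lemma Bd.low_unit (H : Bd p N g ε G) (hp : p.Prime) (hg0 : 1 ≤ g) (hg : g + 2 ≤ p)
    (hpN : p.Coprime N) {a c : ℤ} (hc : c ≠ 0) (hpc : ¬ (p : ℤ) ∣ c) :
    G ((a : ℚ) / c) 0 1 = 0 := by
  have hpp : Prime (p : ℤ) := Nat.prime_iff_prime_int.mp hp
  have hp0 : (p : ℤ) ≠ 0 := by exact_mod_cast hp.ne_zero
  have hpQ : (p : ℚ) ≠ 0 := by exact_mod_cast hp.ne_zero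
  have hcQ : (c : ℚ) ≠ 0 := by exact_mod_cast hc
  have h1 := H.hecke0 hg0 ((p : ℚ) * (a / c))
  rw [sum_eq_single_of_mem 0 (mem_range.mpr hp.pos)] at h1
  · rw [← h1]
    congr 1
    push_cast
    field_simp
    ring
  · intro j hj hj0
    have hj' := mem_range.mp hj
    have h2 : ((p : ℚ) * (a / c) + j) / p = ((p * a + j * c : ℤ) : ℚ) / ((p * c : ℤ) : ℚ) := by
      push_cast
      field_simp
    rw [h2]
    refine H.low_den hp hg0 hg hpN (mul_ne_zero hp0 hc) ?_ (dvd_mul_right _ _)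
    intro hcon
    have h3 : (p : ℤ) ∣ j * c := (dvd_add_right (dvd_mul_right _ _)).mp hcon
    rcases hpp.dvd_or_dvd h3 with h4 | h4
    · have h5 : p ∣ j := by exact_mod_cast h4
      have := Nat.le_of_dvd (by omega) h5
      omega
    · exact hpc h4

omit [CharP F p] in
lemma Bd.tr (H : Bd p N g ε G) (x : ℚ) (k : ℤ) (u v : F) :
    G (x + k) u v = G x u (k * u + v) := by
  have h := H.eqv 1 k 0 1 (by ring) (dvd_zero _) x (by simp) u v
  simpa using h

/-- The cusps whose denominator is prime to `p`, weight at least three. -/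
lemma Bd.unit (H : Bd p N g ε G) (hp : p.Prime) (hg0 : 1 ≤ g) (hg : g + 2 ≤ p)
    (hpN : p.Coprime N) {a c : ℤ} (hc : c ≠ 0) (hpc : ¬ (p : ℤ) ∣ c) (u v : F) :
    G ((a : ℚ) / c) u v = 0 := by
  have hpp : Prime (p : ℤ) := Nat.prime_iff_prime_int.mp hp
  have hcQ : (c : ℚ) ≠ 0 := by exact_mod_cast hc
  obtain ⟨r, r', hr⟩ := ((Prime.coprime_iff_not_dvd hpp).mpr hpc)
  obtain ⟨k, hk⟩ : ∃ k : ℤ, k = -a * r' := ⟨_, rfl⟩
  have hpa : (p : ℤ) ∣ a + k * c := by
    refine ⟨a * r, ?_⟩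
    rw [hk]
    linear_combination (-a) * hr
  have ha0 : ((a + k * c : ℤ) : F) = 0 := (CharP.intCast_eq_zero_iff F p _).mpr hpa
  have hN0 : (N : F) ≠ 0 := by
    have := intCast_ne_zero (F := F) (not_dvd_level hp hpN)
    exact_mod_cast this
  have hc0 : (c : F) ≠ 0 := intCast_ne_zero hpc
  have h1 : ∀ u v, G (((a + k * c : ℤ) : ℚ) / c) u v = 0 := by
    intro u v
    have h2 := (H.poly (((a + k * c : ℤ) : ℚ) / c)).swap.const_per (p := p) (by omega)
      (-(N * c * c)) (neg_ne_zero.mpr (mul_ne_zero (mul_ne_zero hN0 hc0) hc0)) (by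
        intro t
        have h3 := H.stab hc t 1 (a := a + k * c)
        rw [ha0] at h3
        rw [h3]
        congr 1
        · ring
        · ring) v u
    have h4 := H.low_unit hp hg0 hg hpN hc hpc (a := a + k * c)
    change G (((a + k * c : ℤ) : ℚ) / c) u v = G (((a + k * c : ℤ) : ℚ) / c) 0 1 * v ^ g at h2
    rw [h2, h4, zero_mul]
  have h5 := H.tr ((a : ℚ) / c) k u (-k * u + v)
  rw [show (k : F) * u + (-k * u + v) = v by ring] at h5
  rw [← h5, ← h1 u (-k * u + v)]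
  congr 1
  push_cast
  field_simp

/-- The cusps whose denominator is prime to `p`, weight two. -/
lemma Bd.unit0 (H : Bd p N 0 ε G) (hp : p.Prime) (hpN : p.Coprime N) {a c : ℤ}
    (hc : c ≠ 0) (hpc : ¬ (p : ℤ) ∣ c) (u v : F) : G ((a : ℚ) / c) u v = 0 := by
  have hpp : Prime (p : ℤ) := Nat.prime_iff_prime_int.mp hp
  have hp0 : (p : ℤ) ≠ 0 := by exact_mod_cast hp.ne_zero
  have hpQ : (p : ℚ) ≠ 0 := by exact_mod_cast hp.ne_zero
  have hcQ : (c : ℚ) ≠ 0 := by exact_mod_cast hc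
  have hconst : ∀ (x : ℚ) (u v u' v' : F), G x u v = G x u' v' := by
    intro x u v u' v'
    obtain ⟨r, hr⟩ := H.poly x
    rw [hr, hr]
    simp
  have h1 := H.hecke ((p : ℚ) * (a / c))
  have h2 : ∀ j ∈ (range p).erase 0, (-(j : F)) ^ 0 * G (((p : ℚ) * (a / c) + j) / p) 0 1 =
      ε p * G (p * (p * (a / c))) 1 0 := by
    intro j hj
    rw [mem_erase, mem_range] at hj
    have hcop : IsCoprime (p : ℤ) (c * N * (p * a + j * c)) := by
      rw [Prime.coprime_iff_not_dvd hpp]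
      intro hcon
      rcases hpp.dvd_or_dvd hcon with h | h
      · rcases hpp.dvd_or_dvd h with h | h
        · exact hpc h
        · exact not_dvd_level hp hpN h
      · have h3 : (p : ℤ) ∣ j * c := (dvd_add_right (dvd_mul_right _ _)).mp h
        rcases hpp.dvd_or_dvd h3 with h4 | h4
        · have h5 : p ∣ j := by exact_mod_cast h4
          have := Nat.le_of_dvd (by omega) h5
          omega
        · exact hpc h4
    obtain ⟨A, l, hAl⟩ := hcop
    obtain ⟨K, hK⟩ : ∃ K : ℤ, K = N * l := ⟨_, rfl⟩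
    have hA : A * p = 1 - c * K * (p * a + j * c) := by
      rw [hK]
      linear_combination hAl
    have hAQ : (A : ℚ) * p = 1 - c * K * (p * a + j * c) := by exact_mod_cast hA
    have e1 : ((-(c ^ 2 * K) : ℤ) : ℚ) * (p * (p * (a / c))) + ((p + p ^ 2 * a * c * K : ℤ) : ℚ) =
        p := by
      push_cast
      field_simp
      ring
    have e2 : ((A : ℤ) : ℚ) * (p * (p * (a / c))) +
        ((j + p * a * K * (p * a + j * c) : ℤ) : ℚ) = (p * (a / c) + j) := by
      push_cast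
      field_simp
      linear_combination (p * a : ℚ) * hAQ
    have h3 := H.eqv A (j + p * a * K * (p * a + j * c)) (-(c ^ 2 * K)) (p + p ^ 2 * a * c * K)
      (by linear_combination (1 + p * a * c * K) * hA) (by
        rw [dvd_neg, hK]
        exact ⟨c ^ 2 * l, by ring⟩) (p * (p * ((a : ℚ) / c))) (by rw [e1]; exact hpQ) 0 1
    rw [e1, e2] at h3
    have h4 : (((p + p ^ 2 * a * c * K : ℤ) : ℤ) : ZMod N) = ((p : ℕ) : ZMod N) := by
      rw [hK]
      push_cast
      rw [ZMod.natCast_self]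
      ring
    rw [pow_zero, one_mul, h3, h4]
    congr 1
    exact hconst _ _ _ _ _
  rw [← add_sum_erase _ _ (mem_range.mpr hp.pos), sum_congr rfl h2, sum_const,
    card_erase_of_mem (mem_range.mpr hp.pos), card_range, nsmul_eq_mul,
    Nat.cast_sub hp.one_lt.le, CharP.cast_eq_zero F p] at h1
  rw [hconst _ u v 0 1]
  have h5 : (((p : ℚ) * (a / c) + ((0 : ℕ) : ℚ)) / p) = (a : ℚ) / c := by
    push_cast
    field_simp
    ring
  rw [h5, pow_zero, one_mul] at h1
  linear_combination h1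

/-- A boundary symbol which is killed by `T_p` vanishes. -/
theorem Bd.zero (H : Bd p N g ε G) (hp : p.Prime) (hg : g + 2 ≤ p) (hpN : p.Coprime N) (x : ℚ)
    (u v : F) : G x u v = 0 := by
  have hpp : Prime (p : ℤ) := Nat.prime_iff_prime_int.mp hp
  have hA : ∀ {a c : ℤ}, c ≠ 0 → ¬ (p : ℤ) ∣ c → ∀ u v, G ((a : ℚ) / c) u v = 0 := by
    intro a c hc hpc u v
    rcases Nat.eq_zero_or_pos g with h0 | h0
    · subst h0
      exact H.unit0 hp hpN hc hpc u v
    · exact H.unit hp h0 hg hpN hc hpc u v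
  have hx : x = ((x.num : ℤ) : ℚ) / ((x.den : ℤ) : ℚ) := by
    push_cast
    exact (Rat.num_div_den x).symm
  by_cases hpd : (p : ℤ) ∣ x.den
  · have hpn : ¬ (p : ℤ) ∣ x.num := by
      intro hcon
      have h1 : p ∣ x.num.natAbs := Int.natCast_dvd.mp hcon
      have h2 : p ∣ x.den := by exact_mod_cast hpd
      have h3 := Nat.dvd_gcd h1 h2
      rw [x.reduced.gcd_eq_one] at h3
      exact hp.one_lt.ne' (Nat.dvd_one.mp h3)
    have hne : ¬ (p : ℤ) ∣ N * x.num + x.den := by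
      intro hcon
      have h1 : (p : ℤ) ∣ N * x.num := (dvd_add_left hpd).mp hcon
      rcases hpp.dvd_or_dvd h1 with h2 | h2
      · exact not_dvd_level hp hpN h2
      · exact hpn h2
    have hne0 : (N * x.num + x.den : ℤ) ≠ 0 := by
      intro h
      rw [h] at hne
      exact hne (dvd_zero _)
    have hneQ : (N : ℚ) * x.num + x.den ≠ 0 := by exact_mod_cast hne0
    have hdQ : (x.den : ℚ) ≠ 0 := by exact_mod_cast x.den_ne_zero
    have e0 : ((N : ℤ) : ℚ) * x + ((1 : ℤ) : ℚ) = (N * x.num + x.den) / x.den := by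
      rw [eq_div_iff hdQ]
      push_cast
      linear_combination (N : ℚ) * Rat.mul_den_eq_num x
    have h3 := H.eqv 1 0 N 1 (by ring) (dvd_refl _) x
      (by rw [e0]; exact div_ne_zero hneQ hdQ) (u - N * v) v
    have e1 : (((1 : ℤ) : ℚ) * x + ((0 : ℤ) : ℚ)) / (((N : ℤ) : ℚ) * x + ((1 : ℤ) : ℚ)) =
        ((x.num : ℤ) : ℚ) / ((N * x.num + x.den : ℤ) : ℚ) := by
      rw [e0]
      push_cast
      rw [one_mul, add_zero, div_div_eq_mul_div, Rat.mul_den_eq_num]
    rw [e1, hA hne0 hne] at h3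
    have h4 : ε (((1 : ℤ) : ℤ) : ZMod N) = 1 := by
      push_cast
      exact map_one ε
    rw [h4, one_mul] at h3
    rw [h3]
    congr 1
    · push_cast
      ring
    · push_cast
      ring
  · rw [hx]
    exact hA (by exact_mod_cast x.den_ne_zero) hpd u v

end CharP

end Pool.Agent.MuSS
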