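import Pool.Agent.MuSS.Core

/-!
The sheets of odd and of even levels.
-/

open Finset

namespace Pool.Agent.MuSS

variable {F : Type} [Field F] {p N g : ℕ} {e : F} {G : ℚ → F → F → F}

/-- For `m` prime to `p` there are even `J ≥ 4` with `m ∣ 1 - p ^ J`. -/
lemma exists_even_pow (hp : p.Prime) {m : ℤ} (hm : ¬ (p : ℤ) ∣ m) :
    ∃ (J : ℕ) (T : ℤ), Even J ∧ 4 ≤ J ∧ m * T = 1 - (p : ℤ) ^ J := by
  have hm0 : m ≠ 0 := by
    rintro rfl
    simp at hm
  have hpm : Nat.Coprime p m.natAbs := by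
    rw [hp.coprime_iff_not_dvd]
    intro hcon
    exact hm (Int.natCast_dvd.mpr hcon)
  have htot := Nat.ModEq.pow_totient hpm
  have h5 : p ^ (Nat.totient m.natAbs * 4) ≡ 1 [MOD m.natAbs] := by
    have := htot.pow 4
    rw [← pow_mul, one_pow] at this
    exact this
  have hdvd : m ∣ 1 - (p : ℤ) ^ (Nat.totient m.natAbs * 4) := by
    have h3 := (Nat.modEq_iff_dvd.mp h5)
    rw [← Int.natAbs_dvd]
    have h4 : ((m.natAbs : ℕ) : ℤ) ∣ ((1 : ℕ) : ℤ) - ((p ^ (Nat.totient m.natAbs * 4) : ℕ) : ℤ) := h3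
    push_cast at h4 ⊢
    exact h4
  obtain ⟨T, hT⟩ := hdvd
  have hpos : 0 < Nat.totient m.natAbs := Nat.totient_pos.mpr (Int.natAbs_pos.mpr hm0)
  refine ⟨_, T, ?_, ?_, hT.symm⟩
  · exact Even.mul_left (by decide) _
  · omega

omit [Field F] in
/-- A function on the integers with period one. -/
lemma const_of_succ {f : ℤ → F} (h : ∀ k, f (k + 1) = f k) (k : ℤ) : f k = f 0 := by
  induction k using Int.induction_on with
  | zero => rfl
  | succ n ih => rw [h, ih]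
  | pred n ih =>
    rw [← ih, ← h (-(n : ℤ) - 1)]
    congr 1
    ring

/-- The odd levels. -/
theorem Core.step_odd (H : Core p N g e G) (hp : p.Prime) (hpN : p.Coprime N)
    (hL : ∀ i : ℕ, Odd i → Lev p G i) : Step p N G := by
  have hpp : Prime (p : ℤ) := Nat.prime_iff_prime_int.mp hp
  have hp0 : (p : ℤ) ≠ 0 := by exact_mod_cast hp.ne_zero
  have hpQ : (p : ℚ) ≠ 0 := by exact_mod_cast hp.ne_zero
  have hNp : ¬ (p : ℤ) ∣ N := by
    intro h
    have h1 : p ∣ N := by exact_mod_cast h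
    exact (hp.coprime_iff_not_dvd.mp hpN) h1
  intro b d hb hd hbd hdN
  -- `a d - b c = p`
  obtain ⟨a, c, hNc, hpc, hpa, hac⟩ : ∃ a c : ℤ, (N : ℤ) ∣ c ∧ ¬ (p : ℤ) ∣ c ∧ ¬ (p : ℤ) ∣ a ∧
      a * d - b * c = p := by
    obtain ⟨r, r', hr⟩ : IsCoprime d (b * N) := IsCoprime.mul_right hbd.symm hdN
    refine ⟨b * N + p * r, N * (d - p * r'), dvd_mul_right _ _, ?_, ?_, ?_⟩
    · intro hcon
      rcases hpp.dvd_or_dvd hcon with h | h
      · exact hNp h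
      · exact hd ((dvd_sub_left (dvd_mul_right _ _)).mp h)
    · intro hcon
      rcases hpp.dvd_or_dvd ((dvd_add_left (dvd_mul_right _ _)).mp hcon) with h | h
      · exact hb h
      · exact hNp h
    · linear_combination (p : ℤ) * hr
  obtain ⟨J, m, hJ, hJ4, hm⟩ := exists_even_pow hp (m := c * d) (by
    intro hcon
    rcases hpp.dvd_or_dvd hcon with h | h
    · exact hpc h
    · exact hd h)
  have hpm : ¬ (p : ℤ) ∣ m := by
    intro hcon
    have h1 : (p : ℤ) ∣ 1 - (p : ℤ) ^ J := by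
      rw [← hm]
      exact hcon.mul_left _
    have h2 : (p : ℤ) ∣ 1 := (dvd_sub_left (dvd_pow_self _ (by omega))).mp h1
    exact hpp.not_isUnit (isUnit_of_dvd_one h2)
  have hd0 : d ≠ 0 := by
    rintro rfl
    exact hd (dvd_zero _)
  have hc0 : c ≠ 0 := by
    rintro rfl
    exact hpc (dvd_zero _)
  have hdQ : (d : ℚ) ≠ 0 := by exact_mod_cast hd0
  refine ⟨m, hpm, ?_⟩
  have hstep : ∀ k : ℤ, G (((b + (k + 1) * p * m * d : ℤ) : ℚ) / ((p ^ 2 * d : ℤ) : ℚ)) 0 1 =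
      G (((b + k * p * m * d : ℤ) : ℚ) / ((p ^ 2 * d : ℤ) : ℚ)) 0 1 := by
    intro k
    have hpak : ¬ (p : ℤ) ∣ a + k * p * m * c := by
      intro hcon
      exact hpa ((dvd_add_left (⟨k * m * c, by ring⟩ : (p : ℤ) ∣ k * p * m * c)).mp hcon)
    have hpbk : ∀ k : ℤ, ¬ (p : ℤ) ∣ b + k * p * m * d := by
      intro k hcon
      exact hb ((dvd_add_left (⟨k * m * d, by ring⟩ : (p : ℤ) ∣ k * p * m * d)).mp hcon)
    have hcop : IsCoprime (a + k * p * m * c) ((p : ℤ) ^ 2 * c) := by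
      have h1 : IsCoprime (a + k * p * m * c) (p : ℤ) :=
        ((Prime.coprime_iff_not_dvd hpp).mpr hpak).symm
      refine IsCoprime.mul_right h1.pow_right ?_
      obtain ⟨r, r', hr⟩ := h1
      refine ⟨r + r' * d, -r' * (b + k * p * m * d), ?_⟩
      linear_combination hr + r' * hac
    have e1 := H.sheet hp (hL 3 (by decide)) hcop (hNc.mul_left _)
      (mul_ne_zero (pow_ne_zero _ hp0) hc0) (mul_ne_zero (pow_ne_zero 2 hp0) hd0)
      (b := b + k * p * m * d) (by linear_combination (p : ℤ) ^ 2 * hac) (hpbk k) 0 1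
    have e2 := H.sheet hp (hL (3 + J) (Odd.add_even (by decide) hJ)) hcop (hNc.mul_left _)
      (mul_ne_zero (pow_ne_zero _ hp0) hc0) (mul_ne_zero (pow_ne_zero 2 hp0) hd0)
      (b := b + (k + 1) * p * m * d) (by
        rw [pow_add]
        linear_combination (p : ℤ) ^ 2 * hac - (p : ℤ) ^ 3 * hm) (hpbk (k + 1)) 0 1
    rw [e1, e2]
  intro k
  have h1 : G (((b + k * p * m * d : ℤ) : ℚ) / ((p ^ 2 * d : ℤ) : ℚ)) 0 1 =
      G (((b + 0 * p * m * d : ℤ) : ℚ) / ((p ^ 2 * d : ℤ) : ℚ)) 0 1 :=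
    const_of_succ (f := fun k : ℤ =>
      G (((b + k * p * m * d : ℤ) : ℚ) / ((p ^ 2 * d : ℤ) : ℚ)) 0 1) hstep k
  have h2 : ∀ k : ℤ, ((b + k * p * m * d : ℤ) : ℚ) / ((p ^ 2 * d : ℤ) : ℚ) =
      (b : ℚ) / (p ^ 2 * d) + k * m / p := by
    intro k
    push_cast
    field_simp
  rw [h2, h2, Int.cast_zero, zero_mul, zero_div, add_zero] at h1
  exact h1

/-- The even levels. -/
theorem Core.step_even (H : Core p N g e G) (hp : p.Prime) (hpN : p.Coprime N)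
    (hL : ∀ i : ℕ, Even i → Lev p G i) : Step p N G := by
  have hpp : Prime (p : ℤ) := Nat.prime_iff_prime_int.mp hp
  have hp0 : (p : ℤ) ≠ 0 := by exact_mod_cast hp.ne_zero
  have hpQ : (p : ℚ) ≠ 0 := by exact_mod_cast hp.ne_zero
  have hNp : ¬ (p : ℤ) ∣ N := by
    intro h
    have h1 : p ∣ N := by exact_mod_cast h
    exact (hp.coprime_iff_not_dvd.mp hpN) h1
  intro β d hβ hd hβd hdN
  have hd0 : d ≠ 0 := by
    rintro rfl
    exact hd (dvd_zero _)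
  have hdQ : (d : ℚ) ≠ 0 := by exact_mod_cast hd0
  -- `d ∣ p ^ 2 β c + 1`
  obtain ⟨c, hNc, hpc, t, ht⟩ : ∃ c : ℤ, (N : ℤ) ∣ c ∧ ¬ (p : ℤ) ∣ c ∧
      ∃ t : ℤ, p ^ 2 * β * c + 1 = d * t := by
    obtain ⟨r, r', hr⟩ : IsCoprime d (p ^ 2 * β * N) :=
      IsCoprime.mul_right (IsCoprime.mul_right
        (((Prime.coprime_iff_not_dvd hpp).mpr hd).symm.pow_right) hβd.symm) hdN
    by_cases h : (p : ℤ) ∣ r'
    · refine ⟨N * (d - r'), dvd_mul_right _ _, ?_, p ^ 2 * β * N + r, ?_⟩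
      · intro hcon
        rcases hpp.dvd_or_dvd hcon with h1 | h1
        · exact hNp h1
        · exact hd ((dvd_sub_left h).mp h1)
      · linear_combination (-1 : ℤ) * hr
    · refine ⟨N * (-r'), dvd_mul_right _ _, ?_, r, ?_⟩
      · intro hcon
        rcases hpp.dvd_or_dvd hcon with h1 | h1
        · exact hNp h1
        · exact h ((dvd_neg).mp h1)
      · linear_combination (-1 : ℤ) * hr
  have hc0 : c ≠ 0 := by
    rintro rfl
    exact hpc (dvd_zero _)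
  obtain ⟨c2, hc2⟩ : ∃ c2 : ℤ, c2 = c + p ^ 3 * d * N := ⟨_, rfl⟩
  have hpc2 : ¬ (p : ℤ) ∣ c2 := by
    rw [hc2]
    intro hcon
    exact hpc ((dvd_add_left (⟨p ^ 2 * d * N, by ring⟩ : (p : ℤ) ∣ p ^ 3 * d * N)).mp hcon)
  have hNc2 : (N : ℤ) ∣ c2 := by
    rw [hc2]
    exact dvd_add hNc (dvd_mul_left _ _)
  have hc20 : c2 ≠ 0 := by
    rintro rfl
    exact hpc2 (dvd_zero _)
  obtain ⟨J, R, hJ, hJ4, hR⟩ := exists_even_pow hp (m := c * c2 * d) (by
    intro hcon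
    rcases hpp.dvd_or_dvd hcon with h | h
    · rcases hpp.dvd_or_dvd h with h | h
      · exact hpc h
      · exact hpc2 h
    · exact hd h)
  have hpR : ¬ (p : ℤ) ∣ R := by
    intro hcon
    have h1 : (p : ℤ) ∣ 1 - (p : ℤ) ^ J := by
      rw [← hR]
      exact hcon.mul_left _
    have h2 : (p : ℤ) ∣ 1 := (dvd_sub_left (dvd_pow_self _ (by omega))).mp h1
    exact hpp.not_isUnit (isUnit_of_dvd_one h2)
  obtain ⟨J', rfl⟩ : ∃ J', J = J' + 2 := ⟨J - 2, by omega⟩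
  -- `a d = β c + p ^ (J - 2)`
  obtain ⟨a, ha⟩ : ∃ a : ℤ, a * d = β * c + (p : ℤ) ^ J' := by
    have h1 : d ∣ (p : ℤ) ^ 2 * (β * c + (p : ℤ) ^ J') := by
      refine ⟨t - c * c2 * R, ?_⟩
      rw [pow_add] at hR
      linear_combination ht + hR
    have h2 : d ∣ β * c + (p : ℤ) ^ J' :=
      (((Prime.coprime_iff_not_dvd hpp).mpr hd).symm.pow_right).dvd_of_dvd_mul_left h1
    obtain ⟨a, ha⟩ := h2
    exact ⟨a, by rw [ha]; ring⟩
  have hpa : ¬ (p : ℤ) ∣ a := by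
    intro hcon
    have h1 : (p : ℤ) ∣ β * c + (p : ℤ) ^ J' := by
      rw [← ha]
      exact hcon.mul_right _
    have h2 : (p : ℤ) ∣ β * c := (dvd_add_left (dvd_pow_self _ (by omega))).mp h1
    rcases hpp.dvd_or_dvd h2 with h | h
    · exact hβ h
    · exact hpc h
  obtain ⟨b, hb⟩ : ∃ b : ℤ, b = p ^ 2 * β - c2 * R * d := ⟨_, rfl⟩
  have hpb : ¬ (p : ℤ) ∣ b := by
    rw [hb]
    intro hcon
    have h1 : (p : ℤ) ∣ c2 * R * d :=
      (dvd_sub_right (⟨p * β, by ring⟩ : (p : ℤ) ∣ p ^ 2 * β)).mp hcon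
    rcases hpp.dvd_or_dvd h1 with h | h
    · rcases hpp.dvd_or_dvd h with h | h
      · exact hpc2 h
      · exact hpR h
    · exact hd h
  -- the two basic relations
  have r1 : a * (p ^ 2 * d) - c * b = 1 := by
    rw [pow_add] at hR
    linear_combination (p : ℤ) ^ 2 * ha - c * hb + hR
  obtain ⟨a2, ha2⟩ : ∃ a2 : ℤ, a2 = a + b * p * N := ⟨_, rfl⟩
  have r2 : a2 * (p ^ 2 * d) - c2 * b = 1 := by
    rw [ha2, hc2]
    linear_combination r1
  have hpa2 : ¬ (p : ℤ) ∣ a2 := by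
    rw [ha2]
    intro hcon
    exact hpa ((dvd_add_left (⟨b * N, by ring⟩ : (p : ℤ) ∣ b * p * N)).mp hcon)
  obtain ⟨n, hn⟩ : ∃ n : ℤ, n = N * d * R := ⟨_, rfl⟩
  have hpn : ¬ (p : ℤ) ∣ n := by
    rw [hn]
    intro hcon
    rcases hpp.dvd_or_dvd hcon with h | h
    · rcases hpp.dvd_or_dvd h with h | h
      · exact hNp h
      · exact hd h
    · exact hpR h
  have hcop : ∀ {a c b : ℤ}, ¬ (p : ℤ) ∣ a → a * (p ^ 2 * d) - c * b = 1 → ∀ k : ℤ,
      IsCoprime (a - k * n * p * c) ((p : ℤ) ^ 2 * c) := by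
    intro a c b hpa r1 k
    have hpak : ¬ (p : ℤ) ∣ a - k * n * p * c := by
      intro hcon
      exact hpa ((dvd_sub_left (⟨k * n * c, by ring⟩ : (p : ℤ) ∣ k * n * p * c)).mp hcon)
    refine IsCoprime.mul_right
      (((Prime.coprime_iff_not_dvd hpp).mpr hpak).symm.pow_right) ?_
    refine ⟨p ^ 2 * d, k * n * p * (p ^ 2 * d) - b, ?_⟩
    linear_combination r1
  have hstep : ∀ k : ℤ, G (((β - (k + 1) * n * p * d : ℤ) : ℚ) / ((p ^ 2 * d : ℤ) : ℚ)) 0 1 =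
      G (((β - k * n * p * d : ℤ) : ℚ) / ((p ^ 2 * d : ℤ) : ℚ)) 0 1 := by
    intro k
    have hpβk : ∀ k : ℤ, ¬ (p : ℤ) ∣ β - k * n * p * d := by
      intro k hcon
      exact hβ ((dvd_sub_left (⟨k * n * d, by ring⟩ : (p : ℤ) ∣ k * n * p * d)).mp hcon)
    have hpbk : ¬ (p : ℤ) ∣ b - k * n * p ^ 3 * d := by
      intro hcon
      exact hpb ((dvd_sub_left (⟨k * n * p ^ 2 * d, by ring⟩ :
        (p : ℤ) ∣ k * n * p ^ 3 * d)).mp hcon)
    have e1 := H.sheet hp (hL (J' + 2) hJ) (hcop hpa r1 k) (hNc.mul_left _)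
      (mul_ne_zero (pow_ne_zero _ hp0) hc0) (mul_ne_zero (pow_ne_zero 2 hp0) hd0)
      (b := β - k * n * p * d) (by
        rw [pow_add]
        linear_combination (p : ℤ) ^ 2 * ha) (hpβk k) 0 1
    have e2 := H.sheet hp (hL 2 (by decide)) (hcop hpa r1 k) (hNc.mul_left _)
      (mul_ne_zero (pow_ne_zero _ hp0) hc0) (mul_ne_zero (pow_ne_zero 4 hp0) hd0)
      (b := b - k * n * p ^ 3 * d) (by
        linear_combination (p : ℤ) ^ 2 * r1) hpbk 0 1
    have e3 := H.sheet hp (hL 2 (by decide)) (hcop hpa2 r2 k) (hNc2.mul_left _)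
      (mul_ne_zero (pow_ne_zero _ hp0) hc20) (mul_ne_zero (pow_ne_zero 4 hp0) hd0)
      (b := b - k * n * p ^ 3 * d) (by
        linear_combination (p : ℤ) ^ 2 * r2) hpbk 0 1
    have e4 := H.sheet hp (hL (J' + 2) hJ) (hcop hpa2 r2 k) (hNc2.mul_left _)
      (mul_ne_zero (pow_ne_zero _ hp0) hc20) (mul_ne_zero (pow_ne_zero 2 hp0) hd0)
      (b := β - (k + 1) * n * p * d) (by
        have h5 : a2 * d - c2 * β + c2 * (n * p * d) = (p : ℤ) ^ J' := by
          have h6 : b - p ^ 2 * β + c2 * d * R = 0 := by rw [hb]; ring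
          rw [ha2, hn]
          linear_combination ha + (p * N * d) * h6 - β * hc2
        rw [pow_add]
        linear_combination (p : ℤ) ^ 2 * h5) (hpβk (k + 1)) 0 1
    rw [e4, ← e3, e2, ← e1]
  refine ⟨-n, fun h => hpn ((dvd_neg).mp h), ?_⟩
  intro k
  have h1 : G (((β - k * n * p * d : ℤ) : ℚ) / ((p ^ 2 * d : ℤ) : ℚ)) 0 1 =
      G (((β - 0 * n * p * d : ℤ) : ℚ) / ((p ^ 2 * d : ℤ) : ℚ)) 0 1 :=
    const_of_succ (f := fun k : ℤ =>
      G (((β - k * n * p * d : ℤ) : ℚ) / ((p ^ 2 * d : ℤ) : ℚ)) 0 1) hstep k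
  have h2 : ∀ k : ℤ, ((β - k * n * p * d : ℤ) : ℚ) / ((p ^ 2 * d : ℤ) : ℚ) =
      (β : ℚ) / (p ^ 2 * d) + k * ((-n : ℤ) : ℚ) / p := by
    intro k
    push_cast
    field_simp
    ring
  rw [h2, h2, Int.cast_zero, zero_mul, zero_div, add_zero] at h1
  exact h1

/-- **The main theorem, core form.** If for arbitrarily large `n` the lowest coordinate vanishes on
all points of level `n`, then all values on the orbit of `0` vanish. -/
theorem Core.main [CharP F p] (H : Core p N g e G) (hp : p.Prime) (hg : g + 2 ≤ p)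
    (hpN : p.Coprime N)
    (h : ∀ n₀ : ℕ, ∃ n, n₀ ≤ n ∧ ∀ s : ℤ, ¬ (p : ℤ) ∣ s → G ((s : ℚ) / (p : ℚ) ^ n) 0 1 = 0)
    {b d : ℤ} (hd : d ≠ 0) (hbd : IsCoprime b d) (hdN : IsCoprime d N) (u v : F) :
    G ((b : ℚ) / d) u v = 0 := by
  by_cases hE : ∀ n₀ : ℕ, ∃ n, n₀ ≤ n ∧ Even n ∧
      ∀ s : ℤ, ¬ (p : ℤ) ∣ s → G ((s : ℚ) / (p : ℚ) ^ n) 0 1 = 0
  · refine H.vanish hp hg hpN (H.step_even hp hpN ?_) hd hbd hdN u v
    intro i hi
    obtain ⟨n, hn, hn2, hn3⟩ := hE (i + 2)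
    obtain ⟨x, hx⟩ := hi
    obtain ⟨y, hy⟩ := hn2
    apply H.descent_many hp hg (y - x - 1)
    rw [show i + 2 * (y - x - 1 + 1) = n by omega]
    exact hn3
  · push Not at hE
    obtain ⟨n₁, hn₁⟩ := hE
    refine H.vanish hp hg hpN (H.step_odd hp hpN ?_) hd hbd hdN u v
    intro i hi
    obtain ⟨n, hn, hn3⟩ := h (i + 2 + n₁)
    have hn2 : Odd n := by
      rw [← Nat.not_even_iff_odd]
      intro hcon
      obtain ⟨s, hs1, hs2⟩ := hn₁ n (by omega) hcon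
      exact hs2 (hn3 s hs1)
    obtain ⟨x, hx⟩ := hi
    obtain ⟨y, hy⟩ := hn2
    apply H.descent_many hp hg (y - x - 1)
    rw [show i + 2 * (y - x - 1 + 1) = n by omega]
    exact hn3

end Pool.Agent.MuSS
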