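import Pool.Agent.MuSym.Defs
import Pool.Agent.MuSS.Parity
import Pool.Agent.MuSS.Cusp

/-!
Modular symbols of weight at most `p` in characteristic `p` which are killed by `T_p`: the values
on the paths from `∞` to the points of level `n` do not all vanish, for all large `n`.
-/

open Finset MvPolynomial OnePoint

namespace Pool.Agent.MuSS

open Pool.Agent.MuSym

variable {F : Type} [Field F]

lemma mob_coe {a b c d : ℤ} {x : ℚ} (h : (c : ℚ) * x + d ≠ 0) :
    mob a b c d (x : OnePoint ℚ) = (((a * x + b) / (c * x + d) : ℚ) : OnePoint ℚ) := by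
  change (if (c : ℚ) * x + d = 0 then (∞ : OnePoint ℚ) else
    (((a * x + b) / (c * x + d) : ℚ) : OnePoint ℚ)) = _
  rw [if_neg h]

lemma mob_infty {a b c d : ℤ} (h : c ≠ 0) :
    mob a b c d (∞ : OnePoint ℚ) = ((a / c : ℚ) : OnePoint ℚ) := by
  change (if c = 0 then (∞ : OnePoint ℚ) else ((a / c : ℚ) : OnePoint ℚ)) = _
  rw [if_neg h]

lemma mob_infty_zero {a b d : ℤ} : mob a b 0 d (∞ : OnePoint ℚ) = ∞ := by
  change (if (0 : ℤ) = 0 then (∞ : OnePoint ℚ) else ((a / (0 : ℤ) : ℚ) : OnePoint ℚ)) = ∞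
  rw [if_pos rfl]

lemma eval_act (a b c d : ℤ) (P : MvPolynomial (Fin 2) F) (u v : F) :
    eval ![u, v] (act a b c d P) = eval ![a * u + c * v, b * u + d * v] P := by
  rw [act]
  rw [← MvPolynomial.coe_aeval_eq_eval, ← MvPolynomial.coe_aeval_eq_eval]
  change (aeval ![u, v]) ((aeval _) P) = (aeval _) P
  rw [← AlgHom.comp_apply]
  congr 1
  apply MvPolynomial.algHom_ext
  intro i
  fin_cases i
  · simp
  · simp

variable {p N g : ℕ} {ε : DirichletCharacter F N}
  {Φ : OnePoint ℚ → OnePoint ℚ → MvPolynomial (Fin 2) F}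

/-- The values on the paths from `∞`, as functions. -/
noncomputable def valG (Φ : OnePoint ℚ → OnePoint ℚ → MvPolynomial (Fin 2) F) (x : ℚ) (u v : F) :
    F :=
  eval ![u, v] (Φ ∞ (x : OnePoint ℚ))

lemma self_zero (h : IsModSym N g ε Φ) (x : OnePoint ℚ) : Φ x x = 0 := by
  have := h.add x x x
  simpa using this

lemma sub_eq (h : IsModSym N g ε Φ) (x y : OnePoint ℚ) : Φ x y = Φ ∞ y - Φ ∞ x := by
  have := h.add ∞ x y
  rw [← this]
  ring

lemma term_one (hp : p.Prime) [CharP F p] (x : ℚ) (j : ℕ) (u v : F) :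
    eval ![u, v] (act p (-j) 0 1 (Φ (mob 1 j 0 p ∞) (mob 1 j 0 p (x : OnePoint ℚ)))) =
      valG Φ ((x + j) / p) 0 (-j * u + v) := by
  have hpQ : (p : ℚ) ≠ 0 := by exact_mod_cast hp.ne_zero
  have hpF : (p : F) = 0 := CharP.cast_eq_zero F p
  rw [eval_act, mob_infty_zero, mob_coe (by simpa using hpQ), valG]
  have e1 : (((1 : ℤ) : ℚ) * x + ((j : ℤ) : ℚ)) / (((0 : ℤ) : ℚ) * x + ((p : ℤ) : ℚ)) =
      (x + j) / p := by
    push_cast
    rw [one_mul, zero_mul, zero_add]
  have e2 : ((p : ℤ) : F) * u + ((0 : ℤ) : F) * v = 0 := by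
    push_cast
    rw [hpF, zero_mul, zero_mul, add_zero]
  have e3 : ((-(j : ℤ) : ℤ) : F) * u + ((1 : ℤ) : F) * v = -j * u + v := by
    push_cast
    rw [one_mul]
  rw [e1, e2, e3]

lemma term_two [CharP F p] (x : ℚ) (u v : F) :
    eval ![u, v] (act 1 0 0 p (Φ (mob p 0 0 1 ∞) (mob p 0 0 1 (x : OnePoint ℚ)))) =
      valG Φ (p * x) u 0 := by
  have hpF : (p : F) = 0 := CharP.cast_eq_zero F p
  rw [eval_act, mob_infty_zero, mob_coe (by simp), valG]
  have e1 : (((p : ℤ) : ℚ) * x + ((0 : ℤ) : ℚ)) / (((0 : ℤ) : ℚ) * x + ((1 : ℤ) : ℚ)) = p * x := by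
    push_cast
    rw [zero_mul, zero_add, add_zero, div_one]
  have e2 : ((1 : ℤ) : F) * u + ((0 : ℤ) : F) * v = u := by
    push_cast
    rw [one_mul, zero_mul, add_zero]
  have e3 : ((0 : ℤ) : F) * u + ((p : ℤ) : F) * v = 0 := by
    push_cast
    rw [hpF, zero_mul, zero_mul, add_zero]
  rw [e1, e2, e3]

lemma valG_hecke (hp : p.Prime) [CharP F p] (hT : ∀ x y, heckeT p N ε Φ x y = 0) (x : ℚ)
    (u v : F) :
    ∑ j ∈ range p, valG Φ ((x + j) / p) 0 (-j * u + v) + ε p * valG Φ (p * x) u 0 = 0 := by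
  have h1 := congrArg (eval ![u, v]) (hT ∞ (x : OnePoint ℚ))
  rw [heckeT, map_add, map_sum, map_mul, eval_C, map_zero, term_two,
    sum_congr rfl (fun j _ => term_one hp x j u v)] at h1
  exact h1

lemma valG_poly (h : IsModSym N g ε Φ) (x : ℚ) : IsPoly g (valG Φ x) :=
  isPoly_eval (h.homog _ _)

/-- Homogeneity in the second variable. -/
lemma valG_smul (h : IsModSym N g ε Φ) (x : ℚ) (t : F) : valG Φ x 0 t = t ^ g * valG Φ x 0 1 := by
  obtain ⟨c, hc⟩ := valG_poly h x
  rw [hc, hc, sum_eq_single g, sum_eq_single g]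
  · simp
    ring
  · intro i hi hig
    have := mem_range.mp hi
    rw [zero_pow (by omega)]
    ring
  · intro hg
    simp at hg
  · intro i hi hig
    have := mem_range.mp hi
    rw [zero_pow (by omega)]
    ring
  · intro hg
    simp at hg

lemma valG_hecke_one (hp : p.Prime) [CharP F p] (h : IsModSym N g ε Φ)
    (hT : ∀ x y, heckeT p N ε Φ x y = 0) (x : ℚ) :
    ∑ j ∈ range p, (-(j : F)) ^ g * valG Φ ((x + j) / p) 0 1 + ε p * valG Φ (p * x) 1 0 = 0 := by
  have h1 := valG_hecke hp hT x 1 0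
  have h2 : ∀ j ∈ range p, valG Φ ((x + j) / p) 0 (-j * 1 + 0) =
      (-(j : F)) ^ g * valG Φ ((x + j) / p) 0 1 := by
    intro j _
    rw [valG_smul h _ (-j * 1 + 0), mul_one, add_zero]
  rw [sum_congr rfl h2] at h1
  exact h1

lemma valG_equiv_fin (h : IsModSym N g ε Φ) (a b c d : ℤ) (hdet : a * d - b * c = 1)
    (hN : (N : ℤ) ∣ c) (x y : ℚ) (hx : (c : ℚ) * x + d ≠ 0) (hy : (c : ℚ) * y + d ≠ 0) (u v : F) :
    valG Φ ((a * y + b) / (c * y + d)) u v - valG Φ ((a * x + b) / (c * x + d)) u v =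
      ε d * (valG Φ y (a * u + c * v) (b * u + d * v) -
        valG Φ x (a * u + c * v) (b * u + d * v)) := by
  have h1 := congrArg (eval ![u, v]) (h.equiv a b c d hdet hN (x : OnePoint ℚ) (y : OnePoint ℚ))
  rw [mob_coe hx, mob_coe hy, map_mul, eval_C, eval_act, sub_eq h, sub_eq h (x : OnePoint ℚ),
    map_sub, map_sub] at h1
  exact h1

lemma valG_equiv_inf (h : IsModSym N g ε Φ) (a b c d : ℤ) (hdet : a * d - b * c = 1)
    (hN : (N : ℤ) ∣ c) (hc : c ≠ 0) (y : ℚ) (hy : (c : ℚ) * y + d ≠ 0) (u v : F) :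
    valG Φ ((a * y + b) / (c * y + d)) u v - valG Φ (a / c) u v =
      ε d * valG Φ y (a * u + c * v) (b * u + d * v) := by
  have h1 := congrArg (eval ![u, v]) (h.equiv a b c d hdet hN ∞ (y : OnePoint ℚ))
  rw [mob_infty hc, mob_coe hy, map_mul, eval_C, eval_act, sub_eq h, map_sub] at h1
  exact h1

lemma valG_tr (h : IsModSym N g ε Φ) (x : ℚ) (u v : F) :
    valG Φ (x + 1) u v = valG Φ x u (u + v) := by
  have h1 := congrArg (eval ![u, v]) (h.equiv 1 1 0 1 (by ring) (dvd_zero _) ∞ (x : OnePoint ℚ))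
  rw [mob_infty_zero, mob_coe (by simp), map_mul, eval_C, eval_act] at h1
  have h2 : ε (((1 : ℤ) : ℤ) : ZMod N) = 1 := by
    push_cast
    exact map_one ε
  rw [h2, one_mul] at h1
  have e1 : (((1 : ℤ) : ℚ) * x + ((1 : ℤ) : ℚ)) / (((0 : ℤ) : ℚ) * x + ((1 : ℤ) : ℚ)) = x + 1 := by
    push_cast
    rw [zero_mul, zero_add, one_mul, div_one]
  have e2 : ((1 : ℤ) : F) * u + ((0 : ℤ) : F) * v = u := by
    push_cast
    rw [one_mul, zero_mul, add_zero]
  have e3 : ((1 : ℤ) : F) * u + ((1 : ℤ) : F) * v = u + v := by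
    push_cast
    rw [one_mul, one_mul]
  rw [e1, e2, e3] at h1
  exact h1

lemma core_of (hp : p.Prime) (hpN : p.Coprime N) [CharP F p] (h : IsModSym N g ε Φ)
    (hT : ∀ x y, heckeT p N ε Φ x y = 0) : Core p N g (ε p) (valG Φ) where
  he := by
    have hu : IsUnit ((p : ℕ) : ZMod N) := (ZMod.isUnit_iff_coprime p N).mpr hpN
    exact (hu.map ε).ne_zero
  poly := valG_poly h
  tr := valG_tr h
  sh := by
    intro a b c d hdet hN hc x hx h0 u v
    have h1 := valG_equiv_inf h a b c d hdet hN hc x hx u v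
    rw [h0, mul_zero] at h1
    exact sub_eq_zero.mp h1
  low := by
    intro x hx h0 u v
    have h1 := valG_equiv_fin h 1 0 N 1 (by ring) (dvd_refl _) 0 x (by simp)
      (by push_cast; exact hx) (u - N * v) v
    have e1 : (((1 : ℤ) : ℚ) * x + ((0 : ℤ) : ℚ)) / (((N : ℤ) : ℚ) * x + ((1 : ℤ) : ℚ)) =
        x / (N * x + 1) := by
      push_cast
      rw [one_mul, add_zero]
    have e0 : (((1 : ℤ) : ℚ) * 0 + ((0 : ℤ) : ℚ)) / (((N : ℤ) : ℚ) * 0 + ((1 : ℤ) : ℚ)) = 0 := by
      simp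
    have e2 : ((1 : ℤ) : F) * (u - N * v) + ((N : ℤ) : F) * v = u := by
      push_cast
      ring
    have e3 : ((0 : ℤ) : F) * (u - N * v) + ((1 : ℤ) : F) * v = v := by
      push_cast
      ring
    have h2 : ε (((1 : ℤ) : ℤ) : ZMod N) = 1 := by
      push_cast
      exact map_one ε
    rw [e1, e0, e2, e3, h0, sub_self, h2, one_mul] at h1
    exact sub_eq_zero.mp h1.symm
  hecke := valG_hecke_one hp h hT

lemma bd_of (hp : p.Prime) [CharP F p] (h : IsModSym N g ε Φ)
    (hT : ∀ x y, heckeT p N ε Φ x y = 0)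
    (hz : ∀ b d : ℤ, d ≠ 0 → IsCoprime b d → IsCoprime d N → ∀ u v, valG Φ ((b : ℚ) / d) u v = 0) :
    Bd p N g ε (valG Φ) where
  poly := valG_poly h
  eqv := by
    intro a b c d hdet hN x hx u v
    have h0 : ∀ u v, valG Φ 0 u v = 0 := by
      intro u v
      have := hz 0 1 one_ne_zero isCoprime_one_right isCoprime_one_left u v
      simpa using this
    by_cases hd : d = 0
    · subst hd
      have hc1 : c ≠ 0 := by
        rintro rfl
        simp at hdet
      have hN1 : IsCoprime ((1 : ℤ)) N := isCoprime_one_left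
      have hNu : (N : ℤ) ∣ 1 := by
        obtain ⟨t, ht⟩ := hN
        exact ⟨-b * t, by rw [ht] at hdet; linear_combination -hdet⟩
      have h2 : valG Φ ((a : ℚ) / c) u v = 0 := by
        apply hz a c hc1
        · exact ⟨0, -b, by linear_combination hdet⟩
        · obtain ⟨t, ht⟩ := hNu
          exact ⟨0, t, by linear_combination -ht⟩
      have h1 := valG_equiv_inf h a b c 0 hdet hN hc1 x hx u v
      rw [h2, sub_zero] at h1
      exact h1
    · have hdQ : (d : ℚ) ≠ 0 := by exact_mod_cast hd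
      have h1 := valG_equiv_fin h a b c d hdet hN 0 x (by simpa using hdQ) hx u v
      have h2 : valG Φ (((a : ℚ) * 0 + b) / (c * 0 + d)) u v = 0 := by
        have h3 := hz b d hd ⟨-c, a, by linear_combination hdet⟩ (by
          obtain ⟨t, ht⟩ := hN
          exact ⟨a, -b * t, by rw [ht] at hdet; linear_combination hdet⟩) u v
        rw [← h3]
        congr 1
        ring
      rw [h2, h0, sub_zero, sub_zero] at h1
      exact h1
  hecke := valG_hecke_one hp h hT
  hecke0 := by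
    intro hg0 x
    have h1 := valG_hecke hp hT x 0 1
    have h2 : valG Φ (p * x) 0 0 = 0 := by
      rw [valG_smul h, zero_pow (by omega), zero_mul]
    have h3 : ∀ j ∈ range p, valG Φ ((x + j) / p) 0 (-j * 0 + 1) =
        valG Φ ((x + j) / p) 0 1 := by
      intro j _
      rw [mul_zero, zero_add]
    rw [h2, mul_zero, add_zero, sum_congr rfl h3] at h1
    exact h1

/-- **The main theorem.** -/
theorem main (hp : p.Prime) (hg : g + 2 ≤ p) (hpN : p.Coprime N) [CharP F p]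
    (h : IsModSym N g ε Φ) (hT : ∀ x y, heckeT p N ε Φ x y = 0) (hne : ∃ x y, Φ x y ≠ 0) :
    ∃ n₀ : ℕ, ∀ n ≥ n₀, ∃ b : ℤ, ¬ (p : ℤ) ∣ b ∧ val p Φ n b ≠ 0 := by
  by_contra hcon
  push Not at hcon
  have H := core_of hp hpN h hT
  have hz : ∀ b d : ℤ, d ≠ 0 → IsCoprime b d → IsCoprime d N →
      ∀ u v, valG Φ ((b : ℚ) / d) u v = 0 := by
    intro b d hd hbd hdN u v
    apply H.main hp hg hpN ?_ hd hbd hdN
    intro n₀
    obtain ⟨n, hn, hn'⟩ := hcon n₀
    exact ⟨n, hn, fun s hs => hn' s hs⟩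
  have hB := bd_of hp h hT hz
  have hall := hB.zero hp hg hpN
  have h1 : ∀ x : OnePoint ℚ, Φ ∞ x = 0 := by
    intro x
    induction x using OnePoint.rec with
    | infty => exact self_zero h _
    | coe x =>
      apply (h.homog ∞ (x : OnePoint ℚ)).funext_of_le_card (MvPolynomial.isHomogeneous_zero _ _ _)
      · intro r
        have h2 := hall x (r 0) (r 1)
        rw [valG] at h2
        have h3 : r = ![r 0, r 1] := by
          ext i
          fin_cases i <;> rfl
        rw [h3, h2, map_zero]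
      · obtain ⟨s, hs, _⟩ := exists_shift (F := F) (p := p) 0 (le_refl p)
        calc ((g : ℕ) : Cardinal) ≤ (p : ℕ) := by exact_mod_cast (by omega : g ≤ p)
          _ = ((s.card : ℕ) : Cardinal) := by rw [hs]
          _ = Cardinal.mk s := by rw [Cardinal.mk_coe_finset]
          _ ≤ Cardinal.mk F := Cardinal.mk_subtype_le _
  obtain ⟨x, y, hxy⟩ := hne
  apply hxy
  rw [sub_eq h, h1, h1, sub_zero]

end Pool.Agent.MuSS
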