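import Mathlib

/-!
Binary forms of degree `g` over a field, as functions of two variables.
-/

open Finset

namespace Pool.Agent.MuSS

variable {F : Type} [Field F]

/-- The function `P` of two variables is a binary form of degree `g`. -/
def IsPoly (g : ℕ) (P : F → F → F) : Prop :=
  ∃ c : ℕ → F, ∀ u v, P u v = ∑ i ∈ range (g + 1), c i * u ^ (g - i) * v ^ i

lemma IsPoly.zero {g : ℕ} {P : F → F → F} (h : IsPoly g P) (s : Finset F) (hs : g < s.card)
    (h0 : ∀ k ∈ s, P 1 k = 0) (u v : F) : P u v = 0 := by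
  classical
  obtain ⟨c, hc⟩ := h
  let q : Polynomial F := ∑ i ∈ range (g + 1), Polynomial.C (c i) * Polynomial.X ^ i
  have hq : q.natDegree < s.card := by
    refine lt_of_le_of_lt ?_ hs
    apply Polynomial.natDegree_sum_le_of_forall_le
    intro i hi
    refine (Polynomial.natDegree_C_mul_X_pow_le _ _).trans ?_
    have := mem_range.mp hi
    omega
  have hq0 : q = 0 := by
    apply Polynomial.eq_zero_of_natDegree_lt_card_of_eval_eq_zero' q s ?_ hq
    intro k hk
    have h1 := h0 k hk
    rw [hc] at h1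
    simp only [one_pow, mul_one] at h1
    simp only [q, Polynomial.eval_finsetSum, Polynomial.eval_mul, Polynomial.eval_C,
      Polynomial.eval_pow, Polynomial.eval_X]
    exact h1
  have hc0 : ∀ i ∈ range (g + 1), c i = 0 := by
    intro i hi
    have h2 := congrArg (fun r => Polynomial.coeff r i) hq0
    simp only [q, Polynomial.finsetSum_coeff, Polynomial.coeff_C_mul, Polynomial.coeff_X_pow,
      Polynomial.coeff_zero, mul_ite, mul_one, mul_zero] at h2
    rw [sum_ite_eq (range (g + 1)) i c, if_pos hi] at h2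
    exact h2
  rw [hc]
  apply sum_eq_zero
  intro i hi
  rw [hc0 i hi, zero_mul, zero_mul]

lemma IsPoly.sub {g : ℕ} {P Q : F → F → F} (h : IsPoly g P) (h' : IsPoly g Q) :
    IsPoly g (fun u v => P u v - Q u v) := by
  obtain ⟨c, hc⟩ := h
  obtain ⟨d, hd⟩ := h'
  refine ⟨fun i => c i - d i, fun u v => ?_⟩
  change P u v - Q u v = _
  rw [hc, hd, ← sum_sub_distrib]
  apply sum_congr rfl
  intro i _
  ring

lemma isPoly_pow (g : ℕ) (k : F) : IsPoly g (fun u _ => k * u ^ g) := by
  refine ⟨fun i => if i = 0 then k else 0, fun u v => ?_⟩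
  rw [sum_eq_single 0]
  · simp
  · intro i _ hi
    simp [hi]
  · intro h
    simp at h

lemma IsPoly.swap {g : ℕ} {P : F → F → F} (h : IsPoly g P) : IsPoly g (fun u v => P v u) := by
  obtain ⟨c, hc⟩ := h
  refine ⟨fun i => c (g - i), fun u v => ?_⟩
  change P v u = _
  rw [hc, ← sum_range_reflect]
  apply sum_congr rfl
  intro i hi
  have := mem_range.mp hi
  rw [show g + 1 - 1 - i = g - i by omega, show g - (g - i) = i by omega]
  ring

/-- A binary form of degree `g` which is constant on more than `g` points of the line `u = 1` is a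
multiple of `u ^ g`. -/
lemma IsPoly.const {g : ℕ} {P : F → F → F} (h : IsPoly g P) (k : F) (s : Finset F)
    (hs : g < s.card) (h0 : ∀ t ∈ s, P 1 t = k) (u v : F) : P u v = k * u ^ g := by
  have h1 := (h.sub (isPoly_pow g k)).zero s hs (by
    intro t ht
    rw [h0 t ht, one_pow, mul_one, sub_self]) u v
  exact sub_eq_zero.mp h1

lemma isPoly_eval {g : ℕ} {P : MvPolynomial (Fin 2) F} (h : P.IsHomogeneous g) :
    IsPoly g (fun u v => MvPolynomial.eval ![u, v] P) := by
  classical
  let D : ℕ → (Fin 2 →₀ ℕ) := fun i => Finsupp.single 0 (g - i) + Finsupp.single 1 i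
  have hD1 : ∀ i, D i 1 = i := by
    intro i
    simp [D]
  have hD0 : ∀ i, D i 0 = g - i := by
    intro i
    simp [D]
  have hinj : Function.Injective D := by
    intro i j hij
    rw [← hD1 i, ← hD1 j, hij]
  refine ⟨fun i => P.coeff (D i), fun u v => ?_⟩
  change MvPolynomial.eval ![u, v] P = _
  rw [MvPolynomial.eval_eq']
  have hsub : P.support ⊆ (range (g + 1)).image D := by
    intro d hd
    have hdg : d 0 + d 1 = g := by
      have h1 := h (MvPolynomial.mem_support_iff.mp hd)
      rw [Finsupp.weight_apply, Finsupp.sum_fintype _ _ (by simp)] at h1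
      simpa [Fin.sum_univ_two] using h1
    rw [mem_image]
    refine ⟨d 1, mem_range.mpr (by omega), ?_⟩
    ext j
    fin_cases j
    · change D (d 1) 0 = d 0
      rw [hD0]
      omega
    · change D (d 1) 1 = d 1
      rw [hD1]
  rw [sum_subset hsub, sum_image (fun i _ j _ hij => hinj hij)]
  · apply sum_congr rfl
    intro i _
    rw [Fin.prod_univ_two]
    simp only [Matrix.cons_val_zero, Matrix.cons_val_one, hD0, hD1]
    ring
  · intro d _ hd
    rw [MvPolynomial.notMem_support_iff.mp hd, zero_mul]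

section CharP

variable {p : ℕ} [CharP F p]

lemma exists_shift (k : F) {m : ℕ} (hm : m ≤ p) :
    ∃ s : Finset F, s.card = m ∧ ∀ t ∈ s, ∃ i < m, t = k + (i : F) := by
  classical
  refine ⟨(range m).image (fun i : ℕ => k + (i : F)), ?_, ?_⟩
  · rw [card_image_of_injOn, card_range]
    intro i hi j hj hij
    have hi' : i < m := by simpa using hi
    have hj' : j < m := by simpa using hj
    have h1 : (i : F) = j := add_left_cancel hij
    exact CharP.natCast_injOn_Iio F p (Set.mem_Iio.mpr (by omega)) (Set.mem_Iio.mpr (by omega)) h1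
  · intro t ht
    rw [mem_image] at ht
    obtain ⟨i, hi, rfl⟩ := ht
    exact ⟨i, mem_range.mp hi, rfl⟩

/-- A binary form of degree `g` which vanishes at `m > g` consecutive points of the prime field
vanishes. -/
lemma IsPoly.zero_shift {g : ℕ} {P : F → F → F} (h : IsPoly g P) (k : F) {m : ℕ} (hm : m ≤ p)
    (hg : g < m) (h0 : ∀ i < m, P 1 (k + (i : F)) = 0) (u v : F) : P u v = 0 := by
  obtain ⟨s, hs, hs'⟩ := exists_shift (F := F) k hm
  refine h.zero s (by rw [hs]; exact hg) ?_ u v
  intro t ht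
  obtain ⟨i, hi, rfl⟩ := hs' t ht
  exact h0 i hi

lemma IsPoly.const_shift {g : ℕ} {P : F → F → F} (h : IsPoly g P) (r : F) (hg : g < p)
    (h0 : ∀ i < p, P 1 (i : F) = r) (u v : F) : P u v = r * u ^ g := by
  obtain ⟨s, hs, hs'⟩ := exists_shift (F := F) 0 (le_refl p)
  refine h.const r s (by rw [hs]; exact hg) ?_ u v
  intro t ht
  obtain ⟨i, hi, rfl⟩ := hs' t ht
  rw [zero_add]
  exact h0 i hi

/-- The power sums. -/
lemma sum_neg_pow (hp : p.Prime) {g : ℕ} (hg : g + 2 ≤ p) :
    ∑ j ∈ range p, (-(j : F)) ^ g = 0 := by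
  have : Fact p.Prime := ⟨hp⟩
  have h1 : ∑ x : ZMod p, x ^ g = 0 := by
    apply FiniteField.sum_pow_lt_card_sub_one
    rw [ZMod.card]
    omega
  have h2 : ∑ j ∈ range p, ((j : ℕ) : ZMod p) ^ g = 0 := by
    rw [← h1]
    refine sum_bij (fun j _ => ((j : ℕ) : ZMod p)) (fun _ _ => mem_univ _) ?_ ?_ (fun _ _ => rfl)
    · intro i hi j hj hij
      have hi' : i < p := mem_range.mp hi
      have hj' : j < p := mem_range.mp hj
      exact CharP.natCast_injOn_Iio (ZMod p) p (Set.mem_Iio.mpr hi') (Set.mem_Iio.mpr hj') hij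
    · intro x _
      refine ⟨x.val, mem_range.mpr (ZMod.val_lt x), ?_⟩
      exact ZMod.natCast_zmod_val x
  have h3 := congrArg (ZMod.castHom (dvd_refl p) F) h2
  rw [map_sum, map_zero] at h3
  simp only [map_pow, map_natCast] at h3
  have h4 : ∀ j ∈ range p, (-(j : F)) ^ g = (-1) ^ g * (j : F) ^ g := by
    intro j _
    rw [← mul_pow]
    congr 1
    ring
  rw [sum_congr rfl h4, ← mul_sum, h3, mul_zero]

end CharP

end Pool.Agent.MuSS
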